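import Mathlib

set_option autoImplicit false

/-!
# Induced saturation numbers of hypergrids are not monotone

There is a six-element poset `P` with an induced copy in `[4]²` such that
`sat*([4]², P) = 14` and `sat*([5]², P) ≤ 13`.
-/

namespace Pool.Agent.Results.MP_8c6834_co.NotMonotone

open Finset

/-- The hypergrid `[t]^n` with the coordinatewise order. -/
abbrev Grid (t n : ℕ) : Type := Fin n → Fin t

/-- `F` contains an induced copy of `P`. -/
def HasCopy (P : Type) [PartialOrder P] {t n : ℕ} (F : Finset (Grid t n)) : Prop :=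
  ∃ φ : P ↪o Grid t n, ∀ x, φ x ∈ F

/-- `F` is induced `P`-saturated. -/
def Saturated (P : Type) [PartialOrder P] {t n : ℕ} (F : Finset (Grid t n)) : Prop :=
  ¬ HasCopy P F ∧ ∀ f, f ∉ F → HasCopy P (insert f F)

/-- `m = sat*([t]^n, P)`: the least size of an induced `P`-saturated family in `[t]^n`. -/
def IsSat (P : Type) [PartialOrder P] (t n m : ℕ) : Prop :=
  IsLeast {m | ∃ F : Finset (Grid t n), Saturated P F ∧ #F = m} m

/-- The statement of the question. -/
def Conjecture : Prop :=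
  ∀ (P : Type) [PartialOrder P] [Fintype P] (n t : ℕ), 1 ≤ n → 1 ≤ t →
    HasCopy P (univ : Finset (Grid t n)) →
      (∀ m m', IsSat P t n m → IsSat P t (n + 1) m' → m ≤ m') ∧
      (∀ m m', IsSat P t n m → IsSat P (t + 1) n m' → m ≤ m')

/-- Pairs. -/
abbrev Q (t : ℕ) : Type := Fin t × Fin t

/-- The order of pairs, as a Boolean function. -/
def le2 {t : ℕ} (x y : Q t) : Bool := decide (x.1.val ≤ y.1.val ∧ x.2.val ≤ y.2.val)

theorem le2_iff {t : ℕ} (x y : Q t) : le2 x y = true ↔ x ≤ y := by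
  simp only [le2, decide_eq_true_eq, Prod.le_def, Fin.le_def]

/-- The coordinates of the elements of the poset. -/
def v : Fin 6 → Q 4 := ![(1, 0), (0, 1), (2, 1), (3, 1), (1, 2), (0, 3)]

theorem v_inj : Function.Injective v := by decide

/-- The six-element poset: the subposet `{(1,0),(0,1),(2,1),(3,1),(1,2),(0,3)}` of `{0,1,2,3}²`. -/
structure P6 where
  /-- the index -/
  i : Fin 6
deriving DecidableEq, Fintype

instance : PartialOrder P6 :=
  PartialOrder.lift (fun p : P6 => v p.i) (fun a b h => by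
    have := v_inj h
    cases a; cases b; simp_all)

theorem P6_le (a b : P6) : a ≤ b ↔ le2 (v a.i) (v b.i) = true := by
  rw [le2_iff]; rfl

/-- The comparison condition for the elements with indices `i`, `j`. -/
def C {t : ℕ} (i j : Fin 6) (x y : Q t) : Bool :=
  (le2 x y == le2 (v i) (v j)) && (le2 y x == le2 (v j) (v i))

/-- The isomorphism with pairs. -/
def iso (t : ℕ) : Grid t 2 ≃o Q t := OrderIso.finTwoArrowIso (Fin t)

/-- `F` as a set of pairs contains an induced copy of the poset. -/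
def Copy2 {t : ℕ} (F : Finset (Q t)) (g : Fin 6 → Q t) : Prop :=
  (∀ i j, le2 (g i) (g j) = le2 (v i) (v j)) ∧ ∀ i, g i ∈ F

theorem hasCopy_iff {t : ℕ} (F : Finset (Grid t 2)) :
    HasCopy P6 F ↔ ∃ g : Fin 6 → Q t, Copy2 (F.map (iso t).toEquiv.toEmbedding) g := by
  constructor
  · rintro ⟨φ, hφ⟩
    refine ⟨fun i => iso t (φ ⟨i⟩), ?_, ?_⟩
    · intro i j
      rw [Bool.eq_iff_iff, le2_iff, (iso t).le_iff_le, φ.le_iff_le, P6_le]
    · intro i
      rw [mem_map]
      exact ⟨φ ⟨i⟩, hφ _, rfl⟩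
  · rintro ⟨g, h1, h2⟩
    have hle : ∀ a b : P6, (iso t).symm (g a.i) ≤ (iso t).symm (g b.i) ↔ a ≤ b := by
      intro a b
      rw [(iso t).symm.le_iff_le, ← le2_iff, h1, P6_le]
    refine ⟨OrderEmbedding.ofMapLEIff (fun p => (iso t).symm (g p.i)) hle, ?_⟩
    intro x
    have := h2 x.i
    rw [mem_map] at this
    obtain ⟨y, hy, hyx⟩ := this
    have : (iso t).symm (g x.i) = y := by
      rw [← hyx]; exact (iso t).symm_apply_apply y
    show (iso t).symm (g x.i) ∈ F
    rw [this]; exact hy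

theorem mapIns {t : ℕ} (F : Finset (Grid t 2)) (f : Grid t 2) :
    (insert f F).map (iso t).toEquiv.toEmbedding =
      insert (iso t f) (F.map (iso t).toEquiv.toEmbedding) := by
  rw [map_insert]; rfl

/-- Saturation in terms of pairs. -/
def Sat2 {t : ℕ} (F : Finset (Q t)) : Prop :=
  (¬ ∃ g, Copy2 F g) ∧ ∀ f, f ∉ F → ∃ g, Copy2 (insert f F) g

theorem sat_iff {t : ℕ} (F : Finset (Grid t 2)) :
    Saturated P6 F ↔ Sat2 (F.map (iso t).toEquiv.toEmbedding) := by
  unfold Saturated Sat2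
  rw [hasCopy_iff]
  refine and_congr Iff.rfl ?_
  constructor
  · intro h f hf
    obtain ⟨f', rfl⟩ := (iso t).surjective f
    have : f' ∉ F := fun hf' => hf (mem_map.2 ⟨f', hf', rfl⟩)
    have h2 := (hasCopy_iff _).1 (h f' this)
    rwa [mapIns] at h2
  · intro h f hf
    rw [hasCopy_iff, mapIns]
    apply h
    intro hf'
    rw [mem_map] at hf'
    obtain ⟨y, hy, hyx⟩ := hf'
    exact hf ((iso t).injective hyx ▸ hy)

theorem isSat_iff (t m : ℕ) :
    IsSat P6 t 2 m ↔ IsLeast {m | ∃ F : Finset (Q t), Sat2 F ∧ #F = m} m := by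
  have : {m | ∃ F : Finset (Grid t 2), Saturated P6 F ∧ #F = m} =
      {m | ∃ F : Finset (Q t), Sat2 F ∧ #F = m} := by
    ext m
    constructor
    · rintro ⟨F, h1, h2⟩
      exact ⟨F.map (iso t).toEquiv.toEmbedding, (sat_iff F).1 h1, by rw [card_map, h2]⟩
    · rintro ⟨F, h1, h2⟩
      have hF : (F.map (iso t).symm.toEquiv.toEmbedding).map (iso t).toEquiv.toEmbedding = F := by
        ext x
        simp only [mem_map]
        constructor
        · rintro ⟨y, ⟨z, hz, rfl⟩, rfl⟩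
          have : (iso t) ((iso t).symm z) = z := (iso t).apply_symm_apply z
          show (iso t) ((iso t).symm z) ∈ F
          rw [this]; exact hz
        · intro hx
          exact ⟨(iso t).symm x, ⟨x, hx, rfl⟩, (iso t).apply_symm_apply x⟩
      refine ⟨F.map (iso t).symm.toEquiv.toEmbedding, (sat_iff _).2 ?_, by rw [card_map, h2]⟩
      rw [hF]; exact h1
  unfold IsSat
  rw [this]

section four

/-- The four copies in `[4]²`. -/
def L : Fin 4 → Finset (Q 4) :=
  ![{(1, 0), (0, 1), (2, 1), (3, 1), (1, 2), (0, 3)}, {(1, 0), (0, 1), (2, 2), (3, 1), (1, 2), (0, 3)},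
    {(1, 0), (0, 1), (2, 1), (3, 0), (1, 2), (1, 3)}, {(1, 0), (0, 1), (2, 1), (2, 2), (1, 3), (3, 0)}]

/-- Conditions for the third element. -/
def C2 {t : ℕ} (a b c : Q t) : Bool := C 0 2 a c && C 1 2 b c

/-- Conditions for the fourth element. -/
def C3 {t : ℕ} (a b c d : Q t) : Bool := C 0 3 a d && (C 1 3 b d && C 2 3 c d)

/-- Conditions for the fifth element. -/
def C4 {t : ℕ} (a b c d e : Q t) : Bool := C 0 4 a e && (C 1 4 b e && (C 2 4 c e && C 3 4 d e))

/-- Conditions for the sixth element. -/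
def C5 {t : ℕ} (a b c d e f : Q t) : Bool :=
  C 0 5 a f && (C 1 5 b f && (C 2 5 c f && (C 3 5 d f && C 4 5 e f)))

theorem copies4 : ∀ a b : Q 4, C 0 1 a b = true → ∀ c : Q 4, C2 a b c = true →
    ∀ d : Q 4, C3 a b c d = true → ∀ e : Q 4, C4 a b c d e = true →
    ∀ f : Q 4, C5 a b c d e f = true → ∃ i : Fin 4, L i = {a, b, c, d, e, f} := by
  decide +kernel

theorem conds {t : ℕ} {F : Finset (Q t)} {g : Fin 6 → Q t} (h : Copy2 F g) :
    C 0 1 (g 0) (g 1) = true ∧ C2 (g 0) (g 1) (g 2) = true ∧ C3 (g 0) (g 1) (g 2) (g 3) = true ∧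
    C4 (g 0) (g 1) (g 2) (g 3) (g 4) = true ∧ C5 (g 0) (g 1) (g 2) (g 3) (g 4) (g 5) = true := by
  simp only [C, C2, C3, C4, C5, h.1, beq_self_eq_true, Bool.and_self, and_self]

theorem copy_mem4 {F : Finset (Q 4)} {g : Fin 6 → Q 4} (h : Copy2 F g) :
    ∃ i : Fin 4, L i = {g 0, g 1, g 2, g 3, g 4, g 5} := by
  obtain ⟨h1, h2, h3, h4, h5⟩ := conds h
  exact copies4 _ _ h1 _ h2 _ h3 _ h4 _ h5

/-- Three different elements outside a saturated family are impossible. -/
theorem no_three : ∀ i1 : Fin 4, ∀ f1 ∈ L i1, ∀ i2 : Fin 4, f1 ∉ L i2 → ∀ f2 ∈ L i2, f2 ∉ L i1 →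
    ∀ i3 : Fin 4, f1 ∉ L i3 → f2 ∉ L i3 → ∀ f3 ∈ L i3, f3 ∉ L i1 → f3 ∉ L i2 → False := by
  decide +kernel

theorem exists_L {F : Finset (Q 4)} (hF : Sat2 F) {f : Q 4} (hf : f ∉ F) :
    ∃ i : Fin 4, f ∈ L i ∧ ∀ x ∈ L i, x ≠ f → x ∈ F := by
  obtain ⟨g, hg⟩ := hF.2 f hf
  obtain ⟨i, hi⟩ := copy_mem4 hg
  have hsub : ∀ x ∈ L i, x ∈ insert f F := by
    intro x hx
    rw [hi] at hx
    simp only [mem_insert, mem_singleton] at hx
    rcases hx with rfl | rfl | rfl | rfl | rfl | rfl <;> exact hg.2 _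
  refine ⟨i, ?_, fun x hx hxf => (mem_insert.1 (hsub x hx)).resolve_left hxf⟩
  by_contra hcon
  apply hF.1
  refine ⟨g, hg.1, fun j => ?_⟩
  have hj : g j ∈ L i := by
    rw [hi]
    fin_cases j <;> simp
  refine (mem_insert.1 (hg.2 j)).resolve_left ?_
  rintro h
  exact hcon (h ▸ hj)

theorem lower {F : Finset (Q 4)} (hF : Sat2 F) : 14 ≤ #F := by
  have h16 : #F + #Fᶜ = 16 := by
    rw [card_add_card_compl]; rfl
  by_contra hcon
  push Not at hcon
  have h3 : 2 < #Fᶜ := by omega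
  obtain ⟨f1, h1, f2, h2, f3, h3, h12, h13, h23⟩ := two_lt_card.1 h3
  rw [mem_compl] at h1 h2 h3
  obtain ⟨i1, a1, b1⟩ := exists_L hF h1
  obtain ⟨i2, a2, b2⟩ := exists_L hF h2
  obtain ⟨i3, a3, b3⟩ := exists_L hF h3
  exact no_three i1 f1 a1 i2 (fun h => h1 (b2 _ h h12)) f2 a2 (fun h => h2 (b1 _ h h12.symm))
    i3 (fun h => h1 (b3 _ h h13)) (fun h => h2 (b3 _ h h23)) f3 a3
    (fun h => h3 (b1 _ h h13.symm)) (fun h => h3 (b2 _ h h23.symm))

/-- A saturated family in `[4]²`. -/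
def F14 : Finset (Q 4) := univ \ {(0, 3), (1, 3)}

theorem sat14 : Sat2 F14 := by
  constructor
  · rintro ⟨g, hg⟩
    obtain ⟨i, hi⟩ := copy_mem4 hg
    have key : ∀ i : Fin 4, ∃ x ∈ L i, x ∉ F14 := by decide +kernel
    obtain ⟨x, hx, hxF⟩ := key i
    apply hxF
    rw [hi] at hx
    simp only [mem_insert, mem_singleton] at hx
    rcases hx with rfl | rfl | rfl | rfl | rfl | rfl <;> exact hg.2 _
  · intro f hf
    have hf2 : f = (0, 3) ∨ f = (1, 3) := by
      have h := hf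
      simp only [F14, mem_sdiff, mem_univ, true_and, not_not, mem_insert, mem_singleton] at h
      exact h
    rcases hf2 with rfl | rfl
    · exact ⟨![(1, 0), (0, 1), (2, 1), (3, 1), (1, 2), (0, 3)], by decide +kernel, by decide +kernel⟩
    · exact ⟨![(0, 1), (1, 0), (2, 1), (2, 2), (1, 3), (3, 0)], by decide +kernel, by decide +kernel⟩

end four

section five

/-- A saturated family in `[5]²` with 13 elements. -/
def l13 : List (Q 5) :=
  [(0, 0), (1, 0), (3, 0), (0, 1), (1, 1), (4, 1), (2, 2), (0, 3), (3, 3), (4, 3), (1, 4), (3, 4),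
    (4, 4)]

/-- The same as a finset. -/
def F13 : Finset (Q 5) := l13.toFinset

theorem mem_F13 (x : Q 5) : x ∈ F13 ↔ x ∈ l13 := List.mem_toFinset

theorem card_F13 : #F13 = 13 := by decide +kernel

theorem free13b : (l13.all fun a => l13.all fun b => !(C 0 1 a b) || l13.all fun c =>
    !(C2 a b c) || l13.all fun d => !(C3 a b c d) || l13.all fun e => !(C4 a b c d e) ||
    l13.all fun f => !(C5 a b c d e f)) = true := by
  decide +kernel

theorem imp_of {p q : Bool} (h : (!p || q) = true) (hp : p = true) : q = true := by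
  subst hp; simpa using h

theorem free13 {a b c d e f : Q 5} (ha : a ∈ F13) (hb : b ∈ F13) (h1 : C 0 1 a b = true)
    (hc : c ∈ F13) (h2 : C2 a b c = true) (hd : d ∈ F13) (h3 : C3 a b c d = true) (he : e ∈ F13)
    (h4 : C4 a b c d e = true) (hf : f ∈ F13) : C5 a b c d e f = false := by
  rw [mem_F13] at ha hb hc hd he hf
  have k1 := List.all_eq_true.1 (List.all_eq_true.1 free13b a ha) b hb
  have k2 := List.all_eq_true.1 (imp_of k1 h1) c hc
  have k3 := List.all_eq_true.1 (imp_of k2 h2) d hd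
  have k4 := List.all_eq_true.1 (imp_of k3 h3) e he
  have k5 := List.all_eq_true.1 (imp_of k4 h4) f hf
  simpa using k5

/-- The elements outside `F13`. -/
def witf : Fin 12 → Q 5 :=
  ![(2, 0), (4, 0), (2, 1), (3, 1), (0, 2), (1, 2), (3, 2), (4, 2), (1, 3), (2, 3), (0, 4), (2, 4)]

/-- Copies completed by these elements. -/
def witg : Fin 12 → Fin 6 → Q 5 :=
  ![![(2, 0), (0, 1), (2, 2), (3, 3), (4, 1), (1, 4)],
    ![(0, 1), (1, 0), (2, 2), (3, 3), (1, 4), (4, 0)],
    ![(0, 1), (1, 0), (2, 1), (2, 2), (1, 4), (3, 0)],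
    ![(1, 0), (0, 1), (3, 1), (4, 1), (2, 2), (0, 3)],
    ![(0, 2), (1, 0), (2, 2), (3, 3), (1, 4), (4, 1)],
    ![(1, 0), (0, 1), (1, 2), (2, 2), (4, 1), (0, 3)],
    ![(1, 0), (0, 1), (2, 2), (3, 2), (4, 1), (0, 3)],
    ![(3, 0), (0, 1), (4, 1), (4, 2), (3, 3), (1, 4)],
    ![(0, 1), (1, 0), (1, 3), (1, 4), (2, 2), (3, 0)],
    ![(0, 1), (1, 0), (2, 2), (2, 3), (1, 4), (3, 0)],
    ![(1, 0), (0, 1), (2, 2), (3, 3), (4, 1), (0, 4)],
    ![(0, 3), (1, 0), (1, 4), (2, 4), (3, 3), (4, 1)]]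

theorem wit_ok1 : ∀ k i j, le2 (witg k i) (witg k j) = le2 (v i) (v j) := by
  decide +kernel

theorem wit_ok2 : ∀ k i, witg k i = witf k ∨ witg k i ∈ l13 := by
  decide +kernel

theorem wit_all : ∀ f : Q 5, f ∉ l13 → ∃ k, witf k = f := by
  decide +kernel

theorem sat13 : Sat2 F13 := by
  constructor
  · rintro ⟨g, hg⟩
    obtain ⟨h1, h2, h3, h4, h5⟩ := conds hg
    have := free13 (hg.2 0) (hg.2 1) h1 (hg.2 2) h2 (hg.2 3) h3 (hg.2 4) h4 (hg.2 5)
    rw [h5] at this
    exact absurd this (by decide)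
  · intro f hf
    rw [mem_F13] at hf
    obtain ⟨k, rfl⟩ := wit_all f hf
    refine ⟨witg k, wit_ok1 k, fun i => ?_⟩
    rw [mem_insert, mem_F13]
    exact wit_ok2 k i

end five

theorem isSat14 : IsSat P6 4 2 14 := by
  rw [isSat_iff]
  constructor
  · exact ⟨F14, sat14, by decide +kernel⟩
  · rintro m ⟨F, hF, rfl⟩
    exact lower hF

theorem isSat_le13 : ∃ m, m ≤ 13 ∧ IsSat P6 5 2 m := by
  classical
  have hex : ∃ m, m ∈ {m | ∃ F : Finset (Q 5), Sat2 F ∧ #F = m} := ⟨13, F13, sat13, card_F13⟩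
  refine ⟨Nat.find hex, Nat.find_min' hex ⟨F13, sat13, card_F13⟩, ?_⟩
  rw [isSat_iff]
  exact ⟨Nat.find_spec hex, fun m hm => Nat.find_min' hex hm⟩

theorem hasCopy4 : HasCopy P6 (univ : Finset (Grid 4 2)) := by
  rw [hasCopy_iff]
  refine ⟨v, fun i j => rfl, fun i => ?_⟩
  rw [mem_map]
  exact ⟨(iso 4).symm (v i), mem_univ _, (iso 4).apply_symm_apply _⟩

/-- **Non-monotonicity**: for the six-element poset `P6`, which has an induced copy in `[4]²`, one
has `sat*([4]², P6) = 14` and `sat*([5]², P6) ≤ 13`. -/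
theorem result :
    (HasCopy P6 (univ : Finset (Grid 4 2)) ∧ IsSat P6 4 2 14 ∧ ∃ m, m ≤ 13 ∧ IsSat P6 5 2 m) ∧
    ¬ Conjecture := by
  refine ⟨⟨hasCopy4, isSat14, isSat_le13⟩, fun hC => ?_⟩
  obtain ⟨m, hm, hs⟩ := isSat_le13
  have := (hC P6 2 4 (by norm_num) (by norm_num) hasCopy4).2 14 m isSat14 hs
  omega

end Pool.Agent.Results.MP_8c6834_co.NotMonotone
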